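import Pool.Agent.Helper76.TB.GoalsT
import Pool.Agent.Helper30.BFT.DifLoc
import Pool.Agent.Helper64.BFT.LipSeq

/-!
# Project TB (MP_74f661_nt), packet DIF2: bounded differences
-/

set_option autoImplicit false

open Finset

namespace Pool.Agent.Helper95.TB

open Pool.Agent.Helper60.BFT (YF T0 T1 T2 len chi)
open Pool.Agent.Helper76.TB (AdH DIF2G)
open Pool.Agent.Helper30.BFT (count_class YF_congr YF_zero_or_one abs_chi)

section dif

variable {K : ℕ} {Z ρ : ℕ → ℕ} {β : ℕ → ℕ → (ℕ → ℕ) → ℕ}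

theorem YF_update2 (hβ : AdH ρ β) (r q : ℕ) (hr : ρ r ≤ r) (hq : ρ r < q) (a : ℕ → ℕ) (u v n : ℕ)
    (h1 : ¬ n ≡ u [MOD q]) (h2 : ¬ n + 2 ≡ u [MOD q]) (h3 : ¬ n ≡ v [MOD q])
    (h4 : ¬ n + 2 ≡ v [MOD q]) :
    YF K Z β r (Function.update a q u) n = YF K Z β r (Function.update a q v) n := by
  refine YF_congr r _ _ n (fun p _ _ _ => ?_)
  by_cases hp : p ≤ ρ r
  · have hpr : p ≤ r := hp.trans hr
    rw [if_pos hpr, if_pos hpr]
    have : β r p (Function.update a q u) = β r p (Function.update a q v) :=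
      hβ.small r p hp _ _ (fun q' hq' => by
        rw [Function.update_of_ne (by omega), Function.update_of_ne (by omega)])
    rw [this]
  · have e : ∀ b : ℕ → ℕ, (if p ≤ r then β r p b else b p) = b p := by
      intro b
      by_cases hpr : p ≤ r
      · rw [if_pos hpr]
        exact hβ.large r p (not_le.mp hp) b
      · rw [if_neg hpr]
    rw [e, e]
    by_cases hpq : p = q
    · subst hpq
      rw [Function.update_self, Function.update_self]
      exact ⟨fun _ => ⟨h3, h4⟩, fun _ => ⟨h1, h2⟩⟩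
    · rw [Function.update_of_ne hpq, Function.update_of_ne hpq]

theorem abs_YF_update2 (hβ : AdH ρ β) (r q : ℕ) (hr : ρ r ≤ r) (hq : ρ r < q) (a : ℕ → ℕ)
    (u v n : ℕ) :
    |YF K Z β r (Function.update a q u) n - YF K Z β r (Function.update a q v) n| ≤
      (if n ≡ u [MOD q] then 1 else 0) + (if n + 2 ≡ u [MOD q] then 1 else 0) +
      (if n ≡ v [MOD q] then 1 else 0) + (if n + 2 ≡ v [MOD q] then 1 else 0) := by
  by_cases h : ¬ n ≡ u [MOD q] ∧ ¬ n + 2 ≡ u [MOD q] ∧ ¬ n ≡ v [MOD q] ∧ ¬ n + 2 ≡ v [MOD q]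
  · obtain ⟨h1, h2, h3, h4⟩ := h
    rw [YF_update2 hβ r q hr hq a u v n h1 h2 h3 h4, if_neg h1, if_neg h2, if_neg h3, if_neg h4]
    simp
  · have hle : |YF K Z β r (Function.update a q u) n - YF K Z β r (Function.update a q v) n| ≤ 1 := by
      rcases YF_zero_or_one (K := K) (Z := Z) (β := β) r (Function.update a q u) n with e | e <;>
      rcases YF_zero_or_one (K := K) (Z := Z) (β := β) r (Function.update a q v) n with e' | e' <;>
      rw [e, e'] <;> norm_num
    refine hle.trans ?_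
    have p1 : (0 : ℝ) ≤ (if n ≡ u [MOD q] then 1 else 0) := by split_ifs <;> norm_num
    have p2 : (0 : ℝ) ≤ (if n + 2 ≡ u [MOD q] then 1 else 0) := by split_ifs <;> norm_num
    have p3 : (0 : ℝ) ≤ (if n ≡ v [MOD q] then 1 else 0) := by split_ifs <;> norm_num
    have p4 : (0 : ℝ) ≤ (if n + 2 ≡ v [MOD q] then 1 else 0) := by split_ifs <;> norm_num
    by_cases c1 : n ≡ u [MOD q]
    · rw [if_pos c1]; linarith
    by_cases c2 : n + 2 ≡ u [MOD q]
    · rw [if_pos c2]; linarith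
    by_cases c3 : n ≡ v [MOD q]
    · rw [if_pos c3]; linarith
    by_cases c4 : n + 2 ≡ v [MOD q]
    · rw [if_pos c4]; linarith
    exact absurd ⟨c1, c2, c3, c4⟩ h

theorem sum_ind_le2 (q : ℕ) (hq : 0 < q) (N c u : ℕ) :
    (∑ i ∈ range N, (if c + i ≡ u [MOD q] then (1 : ℝ) else 0)) ≤ (N : ℝ) / q + 1 := by
  rw [Finset.sum_boole]
  exact count_class q hq N c u

theorem sum_abs_YF_update2 (hβ : AdH ρ β) (r q : ℕ) (hr : ρ r ≤ r) (hq : ρ r < q) (a : ℕ → ℕ)
    (u v : ℕ) :
    ∑ i ∈ range (len K r), |YF K Z β r (Function.update a q u) (r ^ K + i) -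
      YF K Z β r (Function.update a q v) (r ^ K + i)| ≤ 4 * ((len K r : ℝ) / q + 1) := by
  have hq0 : 0 < q := by omega
  have e1 := sum_ind_le2 q hq0 (len K r) (r ^ K) u
  have e2 := sum_ind_le2 q hq0 (len K r) (r ^ K + 2) u
  have e3 := sum_ind_le2 q hq0 (len K r) (r ^ K) v
  have e4 := sum_ind_le2 q hq0 (len K r) (r ^ K + 2) v
  refine (Finset.sum_le_sum (fun i _ => abs_YF_update2 hβ r q hr hq a u v (r ^ K + i))).trans ?_
  rw [Finset.sum_add_distrib, Finset.sum_add_distrib, Finset.sum_add_distrib]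
  have hc : ∀ i, r ^ K + i + 2 = r ^ K + 2 + i := fun i => by ring
  simp only [hc]
  linarith

end dif

theorem dif2 : DIF2G := by
  intro ρ Z β hρ hβ r q _ hrq a u v
  have hs := sum_abs_YF_update2 (K := 4) (Z := Z) hβ r q (hρ r) hrq a u v
  have hnn : (0 : ℝ) ≤ (len 4 r : ℝ) / q + 1 := by positivity
  refine ⟨?_, ?_, ?_⟩
  · unfold T0
    rw [← Finset.sum_sub_distrib]
    refine (Finset.abs_sum_le_sum_abs _ _).trans (hs.trans ?_)
    linarith
  · unfold T1
    rw [← Finset.sum_sub_distrib]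
    refine (Finset.abs_sum_le_sum_abs _ _).trans (le_trans ?_ (hs.trans (by linarith)))
    refine Finset.sum_le_sum (fun i _ => ?_)
    rw [← mul_sub, abs_mul, abs_chi, one_mul]
  · unfold T2
    refine (Pool.Agent.Helper64.BFT.lipg _ _ _ (fun n => (abs_chi _).le)
      (fun n => YF_zero_or_one r _ _) (fun n => YF_zero_or_one r _ _) (len 4 r)).trans ?_
    linarith

end Pool.Agent.Helper95.TB
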